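import Mathlib

/-!
# MP_c3fc26_co: IRC-colourings with the chromatic number of colours

There is a connected graph on 20 vertices with chromatic number 3 that has an IRC-colouring with
4 colours, but no IRC-colouring with 3 colours.

Why there is no IRC-colouring with 3 colours: `16, 0, 8` is a triangle, `18` is adjacent to `0`
(and `16`), `19` is adjacent to `8, 16`, and `17` is adjacent to the nonadjacent vertices `18, 19`
with `N[17] ⊆ N[18] ∪ N[19]`.  In a 3-colouring in which `18, 19` have different colours the set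
`{17, 18, 19}` is a rainbow committee and `17` has no private neighbour.  In a 3-colouring in which
`18, 19` have the same colour this is a colour different from the colours of `0, 8, 16`.
-/

namespace Pool.Agent.Results.MP_c3fc26_co.TwentyVertices

variable {V : Type*}

/-- The closed neighbourhood `N[v]`. -/
def closedNbhd (G : SimpleGraph V) (v : V) : Set V := {w | w = v ∨ G.Adj v w}

/-- The private neighbourhood `pn[v, S]`. -/
def pn (G : SimpleGraph V) (v : V) (S : Set V) : Set V :=
  closedNbhd G v \ ⋃ u ∈ S \ {v}, closedNbhd G u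

/-- `S` is irredundant. -/
def Irredundant (G : SimpleGraph V) (S : Set V) : Prop := ∀ v ∈ S, (pn G v S).Nonempty

/-- `c` is a colouring of `G` with exactly `k` colours (`k` nonempty independent classes). -/
def IsColouring (G : SimpleGraph V) (k : ℕ) (c : V → Fin k) : Prop :=
  Function.Surjective c ∧ ∀ u v, G.Adj u v → c u ≠ c v

/-- `S` is a rainbow committee: it consists of one vertex from each colour class. -/
def IsRainbow {k : ℕ} (c : V → Fin k) (S : Set V) : Prop :=
  ∃ x : Fin k → V, (∀ i, c (x i) = i) ∧ S = Set.range x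

/-- `c` is an IRC-colouring of `G` with exactly `k` colours. -/
def IsIRC (G : SimpleGraph V) (k : ℕ) (c : V → Fin k) : Prop :=
  IsColouring G k c ∧ ∀ S, IsRainbow c S → Irredundant G S

/-- The rows of the adjacency matrix of the graph, packed in one number. -/
def tbl : ℕ := 560464497986673950316744035706033948851122809772777166275879940983691487409052633439691793286177983201662038273256031488

/-- Adjacency of the graph. -/
def adjB (u v : Fin 20) : Bool := (tbl / 2 ^ (20 * u.val + v.val)) % 2 == 1

theorem adjB_symm : ∀ u v : Fin 20, adjB u v = adjB v u := by decide +kernel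

theorem adjB_irrefl : ∀ u : Fin 20, adjB u u = false := by decide +kernel

/-- The graph. -/
def G : SimpleGraph (Fin 20) where
  Adj u v := adjB u v = true
  symm := ⟨by intro u v h; rw [adjB_symm]; exact h⟩
  loopless := ⟨by intro u h; rw [adjB_irrefl] at h; exact Bool.noConfusion h⟩

/-- The 4-colouring. -/
def col (v : Fin 20) : Fin 4 :=
  if v.val < 8 then 0 else if v.val < 16 then 1 else if v.val < 18 then 2 else 3

/-- A 3-colouring. -/
def col3 (v : Fin 20) : Fin 3 := ⟨(618543031642 / 4 ^ v.val) % 4 % 3, Nat.mod_lt _ (by norm_num)⟩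

/-- Membership in the closed neighbourhood. -/
def clB (u w : Fin 20) : Bool := w == u || adjB u w

theorem mem_closedNbhd (u w : Fin 20) : w ∈ closedNbhd G u ↔ clB u w = true := by
  unfold closedNbhd clB
  rw [Set.mem_ofPred_eq, Bool.or_eq_true, beq_iff_eq]
  exact Iff.rfl

theorem mem_pn (v w : Fin 20) (S : Set (Fin 20)) :
    w ∈ pn G v S ↔ clB v w = true ∧ ∀ u ∈ S, u ≠ v → clB u w = false := by
  unfold pn
  rw [Set.mem_sdiff, mem_closedNbhd]
  refine and_congr_right fun _ => ?_
  rw [Set.mem_iUnion₂]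
  constructor
  · intro h u hu huv
    by_contra hc
    exact h ⟨u, ⟨hu, huv⟩, (mem_closedNbhd u w).mpr (by simpa using hc)⟩
  · rintro h ⟨u, ⟨hu, huv⟩, hw⟩
    have h1 := h u hu huv
    rw [mem_closedNbhd, h1] at hw
    exact Bool.noConfusion hw

theorem check4 : ∀ a, col a = 0 → ∀ b, col b = 1 → ∀ c, col c = 2 → ∀ d, col d = 3 →
    (∃ w, (clB a w && !clB b w && !clB c w && !clB d w) = true) ∧
    (∃ w, (clB b w && !clB a w && !clB c w && !clB d w) = true) ∧
    (∃ w, (clB c w && !clB a w && !clB b w && !clB d w) = true) ∧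
    (∃ w, (clB d w && !clB a w && !clB b w && !clB c w) = true) := by
  decide +kernel

theorem col_surj : ∀ k : Fin 4, ∃ v, col v = k := by decide +kernel

theorem col_proper : ∀ u v : Fin 20, adjB u v = true → col u ≠ col v := by decide +kernel

theorem irc_col : IsIRC G 4 col := by
  refine ⟨⟨col_surj, fun u v h => col_proper u v h⟩, ?_⟩
  rintro S ⟨x, hx, rfl⟩ v ⟨i, rfl⟩
  obtain ⟨⟨w0, h0⟩, ⟨w1, h1⟩, ⟨w2, h2⟩, ⟨w3, h3⟩⟩ :=
    check4 (x 0) (hx 0) (x 1) (hx 1) (x 2) (hx 2) (x 3) (hx 3)
  simp only [Bool.and_eq_true, Bool.not_eq_true'] at h0 h1 h2 h3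
  obtain ⟨⟨⟨h00, h01⟩, h02⟩, h03⟩ := h0
  obtain ⟨⟨⟨h10, h11⟩, h12⟩, h13⟩ := h1
  obtain ⟨⟨⟨h20, h21⟩, h22⟩, h23⟩ := h2
  obtain ⟨⟨⟨h30, h31⟩, h32⟩, h33⟩ := h3
  fin_cases i
  · refine ⟨w0, (mem_pn _ _ _).mpr ⟨h00, ?_⟩⟩
    rintro u ⟨j, rfl⟩ hj
    fin_cases j
    · exact absurd rfl hj
    · exact h01
    · exact h02
    · exact h03
  · refine ⟨w1, (mem_pn _ _ _).mpr ⟨h10, ?_⟩⟩
    rintro u ⟨j, rfl⟩ hj
    fin_cases j
    · exact h11
    · exact absurd rfl hj
    · exact h12
    · exact h13
  · refine ⟨w2, (mem_pn _ _ _).mpr ⟨h20, ?_⟩⟩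
    rintro u ⟨j, rfl⟩ hj
    fin_cases j
    · exact h21
    · exact h22
    · exact absurd rfl hj
    · exact h23
  · refine ⟨w3, (mem_pn _ _ _).mpr ⟨h30, ?_⟩⟩
    rintro u ⟨j, rfl⟩ hj
    fin_cases j
    · exact h31
    · exact h32
    · exact h33
    · exact absurd rfl hj

theorem cover17 : ∀ w, clB 17 w = true → clB 18 w = true ∨ clB 19 w = true := by decide +kernel

theorem three_a : ∀ a b c j : Fin 3, a ≠ b → a ≠ c → b ≠ c → j = a ∨ j = b ∨ j = c := by
  decide

theorem not_irc3 (c : Fin 20 → Fin 3) : ¬ IsIRC G 3 c := by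
  rintro ⟨⟨_, hp⟩, hc⟩
  have h1 : c 16 ≠ c 0 := hp _ _ (show adjB 16 0 = true by decide +kernel)
  have h2 : c 16 ≠ c 8 := hp _ _ (show adjB 16 8 = true by decide +kernel)
  have h3 : c 0 ≠ c 8 := hp _ _ (show adjB 0 8 = true by decide +kernel)
  have h4 : c 18 ≠ c 0 := hp _ _ (show adjB 18 0 = true by decide +kernel)
  have h5 : c 19 ≠ c 8 := hp _ _ (show adjB 19 8 = true by decide +kernel)
  have h6 : c 19 ≠ c 16 := hp _ _ (show adjB 19 16 = true by decide +kernel)
  have h7 : c 17 ≠ c 18 := hp _ _ (show adjB 17 18 = true by decide +kernel)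
  have h8 : c 17 ≠ c 19 := hp _ _ (show adjB 17 19 = true by decide +kernel)
  by_cases h9 : c 18 = c 19
  · rcases three_a _ _ _ (c 19) h1 h2 h3 with h | h | h
    · exact h6 h
    · exact h4 (h9.trans h)
    · exact h5 h
  · have hx : ∀ j, c ((fun j => if j = c 17 then (17 : Fin 20) else if j = c 18 then 18 else 19) j)
        = j := by
      intro j
      show c (if j = c 17 then (17 : Fin 20) else if j = c 18 then 18 else 19) = j
      split_ifs with h10 h11
      · exact h10.symm
      · exact h11.symm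
      · rcases three_a _ _ _ j h7 h8 h9 with h | h | h
        · exact absurd h h10
        · exact absurd h h11
        · exact h.symm
    obtain ⟨w, hw⟩ := hc _ ⟨_, hx, rfl⟩ 17 ⟨c 17, by simp⟩
    rw [mem_pn] at hw
    obtain ⟨hw1, hw2⟩ := hw
    rcases cover17 w hw1 with h | h
    · have h12 := hw2 18 ⟨c 18, by simp [Ne.symm h7]⟩ (by decide)
      rw [h12] at h
      exact Bool.noConfusion h
    · have h12 := hw2 19 ⟨c 19, by simp [Ne.symm h8, Ne.symm h9]⟩ (by decide)
      rw [h12] at h
      exact Bool.noConfusion h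

theorem col3_proper : ∀ u v : Fin 20, adjB u v = true → col3 u ≠ col3 v := by decide +kernel

theorem chromaticNumber_G : G.chromaticNumber = 3 := by
  apply le_antisymm
  · have h : G.Colorable 3 := ⟨SimpleGraph.Coloring.mk col3 (fun {u v} h => col3_proper u v h)⟩
    exact h.chromaticNumber_le
  · have h : G.IsClique ((({0, 8, 16} : Finset (Fin 20)) : Set (Fin 20))) := by
      intro u hu v hv huv
      simp only [Finset.coe_insert, Finset.coe_singleton, Set.mem_insert_iff,
        Set.mem_singleton_iff] at hu hv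
      show adjB u v = true
      rcases hu with rfl | rfl | rfl <;> rcases hv with rfl | rfl | rfl <;>
        first
          | exact absurd rfl huv
          | decide +kernel
    have h2 := h.card_le_chromaticNumber
    simpa using h2

theorem G_connected : G.Connected := by
  have h0 : ∀ v : Fin 20, G.Reachable 10 v := by
    have h1 : ∀ v : Fin 20, adjB 10 v = true → G.Reachable 10 v := fun v hv =>
      SimpleGraph.Adj.reachable hv
    have h2 : ∀ v : Fin 20, v = 10 ∨ adjB 10 v = true ∨
        ∃ u, adjB 10 u = true ∧ (adjB u v = true ∨ ∃ t, adjB u t = true ∧ adjB t v = true) := by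
      decide +kernel
    intro v
    rcases h2 v with rfl | h | ⟨u, hu, h | ⟨t, ht, h⟩⟩
    · exact SimpleGraph.Reachable.refl _
    · exact h1 v h
    · exact (h1 u hu).trans (SimpleGraph.Adj.reachable h)
    · exact ((h1 u hu).trans (SimpleGraph.Adj.reachable ht)).trans (SimpleGraph.Adj.reachable h)
  exact { preconnected := fun u v => (h0 u).symm.trans (h0 v), nonempty := ⟨0⟩ }

/-- There is a connected graph that has an IRC-colouring, and every IRC-colouring of which uses
more colours than its chromatic number. -/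
theorem result : ∃ G : SimpleGraph (Fin 20), G.Connected ∧ (∃ c, IsIRC G 4 c) ∧
    G.chromaticNumber = 3 ∧
    ∀ (k : ℕ) (c : Fin 20 → Fin k), IsIRC G k c → G.chromaticNumber < k := by
  refine ⟨G, G_connected, ⟨col, irc_col⟩, chromaticNumber_G, ?_⟩
  intro k c hc
  have h1 : G.Colorable k := ⟨SimpleGraph.Coloring.mk c (fun {u v} h => hc.1.2 u v h)⟩
  have h2 := h1.chromaticNumber_le
  refine lt_of_le_of_ne h2 ?_
  intro h3
  rw [chromaticNumber_G] at h3
  have h4 : k = 3 := by exact_mod_cast h3.symm
  subst h4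
  exact not_irc3 c hc

end Pool.Agent.Results.MP_c3fc26_co.TwentyVertices
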